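import Pool.Agent.MWLE.StmtsB

/-!
# MWLE: row AIT (helper13)
-/

set_option autoImplicit false

namespace Pool.Agent.MWLE.H13

open Pool.Agent.Helper14_MV Pool.Agent.Helper2_MV

theorem ait : AitStmt := by
  intro β hg hf h1 p c d q x hm
  have e1 : RR β (p ++ x :: (c ++ x :: (d ++ x :: q)))
      (p ++ (List.replicate (1 + 1) x ++ (c ++ x :: (d ++ x :: q)))) :=
    h1 p c (d ++ x :: q) x (fun a ha => hm a (List.mem_append_left _ ha))
  have e2 := hf p c d q x (by
    intro e he
    have := hm e he
    simp only [List.count_append, List.count_cons] at this ⊢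
    omega)
  have e3 : List.replicate (1 + 1) x ++ (c ++ x :: (d ++ x :: q)) =
      x :: x :: (c ++ x :: (d ++ x :: q)) := by
    simp [List.replicate_succ]
  rw [e3] at e1
  exact β.trans e1 e2.symm

end Pool.Agent.MWLE.H13
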