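import Pool.Agent.MWLE.StmtsA

/-!
# MWLE: row TEX (helper13)
-/

set_option autoImplicit false

namespace Pool.Agent.MWLE.H13

open Pool.Agent.MWGN (Tau)

theorem tex_aux (z : ℕ → ℕ) : ∀ (q I : List ℕ), I.Nodup →
    (∀ i ∈ I, ∀ j ∈ I, z i = z j → i = j) → (∀ i ∈ I, z i ∈ q) →
    ∃ (τ : List ℕ) (S : ℕ → List ℕ) (r : List ℕ), τ.Nodup ∧ (∀ i, i ∈ τ ↔ i ∈ I) ∧
      q = τ.flatMap (fun i => S i ++ [z i]) ++ r := by
  intro q
  induction q with
  | nil =>
    intro I hn hi hq
    have : I = [] := by
      rcases I with _ | ⟨a, I⟩
      · rfl
      · exact absurd (hq a (by simp)) (by simp)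
    subst this
    exact ⟨[], fun _ => [], [], by simp, by simp, by simp⟩
  | cons c q ih =>
    intro I hn hi hq
    by_cases hI : I = []
    · subst hI
      exact ⟨[], fun _ => [], c :: q, by simp, by simp, by simp⟩
    by_cases hc : ∃ i ∈ I, c = z i
    · obtain ⟨i, hiI, hci⟩ := hc
      obtain ⟨τ, S, r, h1, h2, h3⟩ := ih (I.erase i) (hn.erase i)
        (fun a ha b hb => hi a (List.mem_of_mem_erase ha) b (List.mem_of_mem_erase hb))
        (by
          intro a ha
          have haI := List.mem_of_mem_erase ha
          have hne : a ≠ i := by
            intro h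
            subst h
            exact (List.Nodup.not_mem_erase hn) ha
          have := hq a haI
          rcases List.mem_cons.1 this with h | h
          · exact absurd (hi a haI i hiI (h.trans hci)) hne
          · exact h)
      have hit : i ∉ τ := by
        rw [h2]
        exact List.Nodup.not_mem_erase hn
      refine ⟨i :: τ, fun a => if a = i then [] else S a, r, ?_, ?_, ?_⟩
      · exact List.nodup_cons.2 ⟨hit, h1⟩
      · intro a
        rw [List.mem_cons, h2, hn.mem_erase_iff]
        constructor
        · rintro (h | h)
          · exact h ▸ hiI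
          · exact h.2
        · intro h
          by_cases hai : a = i
          · exact Or.inl hai
          · exact Or.inr ⟨hai, h⟩
      · have e : τ.flatMap (fun a => (if a = i then [] else S a) ++ [z a]) =
            τ.flatMap (fun a => S a ++ [z a]) := by
          apply List.flatMap_congr
          intro a ha
          have : a ≠ i := fun h => hit (h ▸ ha)
          simp [this]
        simp only [List.flatMap_cons, if_true, List.nil_append, List.cons_append]
        rw [e, ← h3, hci]
    · push Not at hc
      obtain ⟨τ, S, r, h1, h2, h3⟩ := ih I hn hi (by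
        intro a ha
        rcases List.mem_cons.1 (hq a ha) with h | h
        · exact absurd h.symm (hc a ha)
        · exact h)
      rcases τ with _ | ⟨i, τ⟩
      · exfalso
        apply hI
        rcases I with _ | ⟨a, I⟩
        · rfl
        · exact absurd ((h2 a).2 (by simp)) (by simp)
      have hit : i ∉ τ := (List.nodup_cons.1 h1).1
      refine ⟨i :: τ, fun a => if a = i then c :: S i else S a, r, h1, h2, ?_⟩
      have e : τ.flatMap (fun a => (if a = i then c :: S i else S a) ++ [z a]) =
          τ.flatMap (fun a => S a ++ [z a]) := by
        apply List.flatMap_congr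
        intro a ha
        have : a ≠ i := fun h => hit (h ▸ ha)
        simp [this]
      simp only [List.flatMap_cons, if_true, List.cons_append]
      rw [e, h3]
      simp [List.flatMap_cons]

theorem tex : TexStmt := by
  intro k z q hz hq
  obtain ⟨τ, S, r, h1, h2, h3⟩ := tex_aux z q (List.range (k + 1)) List.nodup_range
    (fun i hi j hj => hz i (by have := List.mem_range.1 hi; omega) j
      (by have := List.mem_range.1 hj; omega))
    (fun i hi => hq i (by have := List.mem_range.1 hi; omega))
  refine ⟨τ, S, r, ⟨h1, ?_⟩, h3⟩
  intro i
  rw [h2, List.mem_range]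
  omega

end Pool.Agent.MWLE.H13
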